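import Mathlib
import Pool.Agent.Q206.MH.Direct

set_option autoImplicit false

/-!
# Crossing points of `g(k;r)` and the maximisers for `s(r)`

`S k r = ∑_{i=1}^k i^r`, `g k r = (2k-1)^r / S k r`, the admissible pairs `Admissible` and the
moment `E|X₀|^r` are defined in `Pool/Agent/Q206/MH/Basic.lean`; the random walk Metropolis chain
with acceptance probability `min{1, π(Y)/π(x)}`, its moment `E|X₁-X₀|^r` and the extremal ratio
`extremal r = sup E|X₁-X₀|^r / E|X₀|^r` are defined in `Pool/Agent/Q206/MH/Direct.lean`.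
-/

namespace Pool.Agent.Results.MP_499f6d_pr.CrossingPoints

open Pool.Agent.Q206.MH Filter Topology

/-- The three statements (a), (b), (c) about the crossing points `ρ k` of `g(k;·)` and
`g(k+1;·)`. -/
theorem result : ∃ ρ : ℕ → ℝ,
    -- (a)
    ((∀ k : ℕ, 1 ≤ k → ∀ r : ℝ, g k r = g (k + 1) r ↔ r = ρ k) ∧
      ρ 1 = 1 ∧
      (∀ k : ℕ, 1 ≤ k → 1 ≤ ρ k) ∧
      (∀ k : ℕ, 1 ≤ k → ρ k < ρ (k + 1)) ∧
      Tendsto ρ atTop atTop ∧
      Tendsto (fun k : ℕ => ρ k / (k * Real.log 3)) atTop (𝓝 1)) ∧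
    -- (b)
    (∀ k : ℕ, 2 ≤ k → ∀ r : ℝ, ρ (k - 1) < r → r < ρ k →
      extremal r = ENNReal.ofReal (g k r) ∧
        ∀ j : ℕ, 1 ≤ j → j ≠ k → extremal r ≠ ENNReal.ofReal (g j r)) ∧
    -- (c)
    (∀ k : ℕ, 1 ≤ k → ∀ j : ℕ, 1 ≤ j →
      (extremal (ρ k) = ENNReal.ofReal (g j (ρ k)) ↔ j = k ∨ j = k + 1)) := by
  refine ⟨ρ, ⟨fun k hk r => root_iff hk r, ρ_one, fun k hk => ?_, fun k hk => ρ_lt hk,
    ρ_tendsto, ρ_asymp⟩, fun k hk r h1 h2 => ?_, fun k hk j hj => ?_⟩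
  · have h1 : (1 : ℝ) ≤ k := by exact_mod_cast hk
    exact h1.trans (ρ_ge hk)
  · rw [extremal_eq]; exact between hk h1 h2
  · rw [extremal_eq]; exact at_root hk hj

end Pool.Agent.Results.MP_499f6d_pr.CrossingPoints
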